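import Pool.Agent.Helper95.PM.Stmts
import Pool.Agent.Helper13.PW.INT

/-!
PM, row INTM: integrability of the Coulomb terms of a molecule.
-/

set_option autoImplicit false

namespace Pool.Agent.Helper95.PW

open MeasureTheory Filter

theorem INTM_pot (h1 : ST_HA3) {n M : ℕ} (X : Fin M → R3) (Z : Fin M → ℝ) {v : Cf n → ℝ}
    (hv : ContDiff ℝ (⊤ : ℕ∞) v) (hc : HasCompactSupport v) :
    MemLp (fun x : Cf n => (∑ k, pot X Z (x k)) * v x) 2 := by
  have h : (fun x : Cf n => (∑ k, pot X Z (x k)) * v x) =
      fun x => ∑ k, ∑ j, Z j / nr (x k - X j) * v x := by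
    funext x
    unfold pot
    rw [Finset.sum_mul]
    refine Finset.sum_congr rfl fun k _ => ?_
    rw [Finset.sum_mul]
  rw [h]
  refine memLp_finsetSum _ fun k _ => memLp_finsetSum _ fun j _ => ?_
  have hcont : Continuous fun x : Cf n => nr (x k - X j) :=
    INT_nr.comp ((continuous_apply k).sub continuous_const)
  have hm : Measurable (fun x : Cf n => Z j / nr (x k - X j) * v x) :=
    (measurable_const.div hcont.measurable).mul hv.continuous.measurable
  refine (memLp_two_iff_integrable_sq hm.aestronglyMeasurable).2 ?_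
  have e : (fun x : Cf n => (Z j / nr (x k - X j) * v x) ^ 2) =
      fun x => Z j ^ 2 * (v x ^ 2 / nr (x k - X j) ^ 2) := by
    funext x
    ring
  rw [e]
  exact (h1 n k (X j) v hv hc).1.const_mul (Z j ^ 2)

theorem st_INTM (h1 : ST_HA3) (h2 : ST_HA2) : ST_INTM := by
  intro n M X Z v w hv hcv hw hcw
  have a1 := INTM_pot h1 X Z hv hcv
  have a2 := INT_rep h2 hv hcv
  have a3 := INT_mem hw hcw
  refine ⟨?_, ?_, a1.integrable_sq, a2.integrable_sq⟩
  · have h := a1.integrable_mul a3
    refine h.congr (Filter.Eventually.of_forall fun x => ?_)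
    simp only [Pi.mul_apply]
    ring
  · have h := a2.integrable_mul a3
    refine h.congr (Filter.Eventually.of_forall fun x => ?_)
    simp only [Pi.mul_apply]
    ring

end Pool.Agent.Helper95.PW
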